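import Pool.Agent.V69.SS.Geo

set_option autoImplicit false

/-!
# The Jordan blocks of Frobenius on the middle cohomology are bounded by the defect of the cycles

In the intended use `k` is an algebraic closure of the field with `p` elements, the varieties are the smooth
projective ones, `W` is the `ℓ`-adic cohomology and `Φ` are the Frobenius endomorphisms of models over finite
fields (`FrobSystem`); `card Φ X s` is the number `q` of elements of the finite field for which the `s`-th iterate
of the Frobenius endomorphism is taken.

Let `X` be a variety of even dimension `2 j`, for example a surface (`j = 1`). Let `M` be the number of the
eigenvalues of Frobenius on `H^{2j}(X)` of the form `q ^ j ζ`, `ζ` a root of unity, with multiplicities (this is the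
negative of the order at `s = j` of the zeta function over a large finite field), and let `r` be the rank of the
group of the cycles of codimension `j` on `X` (over the algebraic closure) modulo numerical equivalence; so `r ≤ M`,
and `r = M` is the Tate conjecture in a strong form. We prove: if `M ≤ r + m + 1`, `m` odd, then the Jordan blocks of
Frobenius for the eigenvalue `q ^ j` have size at most `m`, over every finite field over which `X` is defined.

* For `m = 1`: if `M ≤ r + 2`, then Frobenius acts semisimply on the generalised eigenspace for `q ^ j`. In
  particular for a surface of Picard number `ρ ≥ M - 2`, for example with `b_2 ≤ ρ + 2`. (If the Tate conjecture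
  holds in its strong form, `M = r`, then the semisimplicity is well known.)
* In general the Jordan blocks have size at most `M - r`, and at most `M - r - 1` if `M - r` is even and positive.

No part of the standard conjectures and no comparison of homological and numerical equivalence is assumed.

Proof. The cup product makes the generalised eigenspace `V` over a large finite field a nondegenerate quadratic
space on which `F / q ^ j = 1 + f / μ` is a unipotent isometry, and it fixes the classes of the cycles, among
which there is a nondegenerate subspace of dimension `r`. On its orthogonal complement `U`, `dim U ≤ m + 1`,
the form `f ^ m x · y` is alternating, because `m` is odd and `f ^ (m + 1) = 0`, and it has rank at most one, so it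
vanishes (`V69.SS.orth_nil`). For the smaller finite fields: a generalised eigenvector of `F` in the kernel of
`(F ^ t - μ ^ t) ^ m` is in the kernel of `(F - μ) ^ m`.
-/

open CategoryTheory AlgebraicGeometry

universe u v

namespace Pool.Agent.Results.MP_b685ef_ag.SmallDefects

open Pool.Agent.H914 Pool.Agent.V69.SS
open Pool.Agent.W534 (FrobSystem)

/-- **Jordan blocks of Frobenius and the rank of the group of cycles.** Let `X` have dimension `2 j`, let `m` be
odd, and assume that over all finite fields the dimension of the generalised eigenspace `genTate Φ X s j` of
Frobenius in `H^{2j}(X)` for the eigenvalue `q ^ j` is at most `numRank ops X j + m + 1`. Then over every finite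
field `(F - q ^ j) ^ m` vanishes on the generalised eigenspace. For `m = 1`: Frobenius is semisimple on it if
the rank of the cycles modulo numerical equivalence is at most two less than the dimension. -/
theorem result {k : Type u} [Field k] {𝒱 : VarClass k} {ops : CycleOps 𝒱}
    {W : WeilCohomology.{u, v} ops} {p : ℕ} (Φ : FrobSystem W p) (X : 𝒱.Obj) (j m : ℕ)
    (hdim : X.dim = 2 * j) (hm : Odd m) (h : DefectLE Φ X j (m + 1)) : JordanLE Φ X j m :=
  jordan Φ hdim hm h

end Pool.Agent.Results.MP_b685ef_ag.SmallDefects
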