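import Pool.Agent.V11106.SH.Comp

/-!
# Semisimplicity of Frobenius for complete varieties, up to a nilpotent part of small rank

Consider the cohomology of the complete varieties over a finite field (which need not be smooth),
with the Frobenius endomorphism. Only the Künneth formula for the products `X × T_N` is used, where
`T_N` is a surface obtained from the projective plane by `N` successive blow-ups in rational points.

**One variety.** If for some `N` the nilpotent part of the Frobenius endomorphism on
`H^(i + 2)(X × T_N)` has rank less than `N + 1`, then the Frobenius endomorphism acts semisimply on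
`H^i(X)`.

**Fixed dimension.** If on the complete varieties `Y` of dimension `n + 2` the nilpotent part of the
Frobenius endomorphism on `H^(i + 2)(Y)` has rank `o(b)`, where `b` is the Betti number
`b_(i + 2)(Y)`, then the Frobenius endomorphism acts semisimply on `H^i(X)` for all complete
varieties `X` of dimension `n`.

**All dimensions.** Hence semisimplicity for all complete varieties and degrees is equivalent to
nilpotent parts whose rank is bounded for each dimension and degree, and to nilpotent parts of rank
`o(b)`.
-/

universe u v w

namespace Pool.Agent.Results.MP_b685ef_ag.SublinearDefects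

open Pool.Agent.V11106.SH

theorem result {K : Type u} [Field K] (C : CompleteCohomology.{u, v, w} K) :
    (∀ (X : C.Obj) (i : ℤ) (N : ℕ) (r : ℝ), r < N + 1 →
      FrobNilLe C (C.times X N) (i + 2) r → FrobSemisimpleOn C X i) ∧
    (∀ (n : ℕ) (i : ℤ), FrobNilSublinear C (n + 2) (i + 2) → FrobSemisimple C n i) ∧
    [∀ (n : ℕ) (i : ℤ), FrobSemisimple C n i, ∀ (n : ℕ) (i : ℤ), FrobNilBounded C n i,
      ∀ (n : ℕ) (i : ℤ), FrobNilSublinear C n i].TFAE :=
  complete_main C

end Pool.Agent.Results.MP_b685ef_ag.SublinearDefects
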